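import Pool.Agent.Q37.Serre.Main

/-!
# MP_346585_al (Q1): removing an excellent set of faces preserves Serre's condition `(S_ℓ)`
-/

open MvPolynomial IsLocalRing

universe u

namespace Pool.Agent.Results.MP_346585_al.ExcellentRemoval

/-- A simplicial complex on the vertex set `V`. -/
structure Complex (V : Type u) where
  /-- the faces -/
  faces : Set (Finset V)
  down : ∀ τ ∈ faces, ∀ τ' ⊆ τ, τ' ∈ faces

variable {V : Type u} [DecidableEq V]

/-- The Stanley-Reisner ring `k[Δ]`: the polynomial ring modulo the monomials `∏_{v ∈ τ} x_v` of the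
sets `τ` which are not faces. -/
abbrev SR (k : Type u) [Field k] (Δ : Complex V) : Type u :=
  MvPolynomial V k ⧸
    (Ideal.span {f | ∃ τ : Finset V, τ ∉ Δ.faces ∧ f = ∏ v ∈ τ, X v} : Ideal (MvPolynomial V k))

/-- The depth of a local ring: the supremum of the lengths of the regular sequences in the maximal
ideal. -/
noncomputable def depth (A : Type u) [CommRing A] [IsLocalRing A] : ℕ∞ :=
  ⨆ rs : {rs : List A // (∀ r ∈ rs, r ∈ maximalIdeal A) ∧ RingTheory.Sequence.IsRegular A rs},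
    (rs.1.length : ℕ∞)

/-- Serre's condition `(S_ℓ)`: `depth R_p ≥ min (ℓ, dim R_p)` for all primes `p`. -/
def Serre (ℓ : ℕ) (R : Type u) [CommRing R] : Prop :=
  ∀ (p : Ideal R) [p.IsPrime], min (ℓ : WithBot ℕ∞) (ringKrullDim (Localization.AtPrime p)) ≤
    (depth (Localization.AtPrime p) : WithBot ℕ∞)

/-- `F` is a facet: a maximal face. -/
def IsFacet (Δ : Complex V) (F : Finset V) : Prop :=
  F ∈ Δ.faces ∧ ∀ F' ∈ Δ.faces, F ⊆ F' → F' = F

/-- `A` is an independent set of faces. -/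
def Independent (Δ : Complex V) (A : Set (Finset V)) : Prop :=
  A ⊆ Δ.faces ∧ ∀ σ ∈ A, ∀ τ ∈ A, σ ≠ τ → σ ∪ τ ∉ Δ.faces

/-- `A` is excellent: it is independent and every facet contains a member of `A`. -/
def Excellent (Δ : Complex V) (A : Set (Finset V)) : Prop :=
  Independent Δ A ∧ ∀ F, IsFacet Δ F → ∃ σ ∈ A, σ ⊆ F

/-- `Δ_A`: the faces of `Δ` which contain no member of `A`. -/
def remove (Δ : Complex V) (A : Set (Finset V)) : Complex V where
  faces := {τ | τ ∈ Δ.faces ∧ ∀ σ ∈ A, ¬ σ ⊆ τ}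
  down _ h _ h' := ⟨Δ.down _ h.1 _ h', fun σ hσ hs => h.2 σ hσ (hs.trans h')⟩

/-- Q1: if `A` is excellent and `Δ` satisfies `(S_ℓ)` then `Δ_A` satisfies `(S_ℓ)`, over every
field. -/
theorem result {V : Type u} [Fintype V] [DecidableEq V] (k : Type u) [Field k] (Δ : Complex V)
    (A : Set (Finset V)) (hA : Excellent Δ A) (ℓ : ℕ) (h : Serre ℓ (SR k Δ)) :
    Serre ℓ (SR k (remove Δ A)) := by
  have h1 : Q37.Serre.SE ℓ (Q37.Serre.mI k Δ.faces) := Q37.Serre.serre_iff.1 h
  have h2 := Q37.Serre.main (k := k) (Δ := Δ.faces) Δ.down (A := A) hA.1.2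
    (fun F hF => hA.2 F hF) h1
  exact Q37.Serre.serre_iff.2 h2

end Pool.Agent.Results.MP_346585_al.ExcellentRemoval
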